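import Pool.Agent.Helper26.OS.Defs
import Pool.Agent.Helper11.OB.Wr

/-!
# OS, block GR: good reduction of a family

Bezout identities over the field of the coefficients (Nullstellensatz with the zeros in the complex numbers), reduced modulo
the maximal ideal.
-/

set_option autoImplicit false

namespace Pool.Agent.Helper53.OS

open MvPolynomial Pool.Agent.Helper61.TH Pool.Agent.Helper87.FK Pool.Agent.Helper26.OB Pool.Agent.Helper26.OS

noncomputable section

/-- two polynomials over `k` without a common complex zero -/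
theorem bez {k : Type} [Field k] [Algebra k ℂ] {σ : Type} [Finite σ] (u v : MvPolynomial σ k)
    (h : ∀ x : σ → ℂ, ¬ (aeval x u = 0 ∧ aeval x v = 0)) : ∃ P Q : MvPolynomial σ k, P * u + Q * v = 1 := by
  by_cases hI : Ideal.span {u, v} = (⊤ : Ideal (MvPolynomial σ k))
  · have h1 : (1 : MvPolynomial σ k) ∈ Ideal.span {u, v} := by rw [hI]; trivial
    exact Ideal.mem_span_pair.1 h1
  · obtain ⟨M, hM, hIM⟩ := Ideal.exists_le_maximal _ hI
    obtain ⟨x, hx⟩ := eq_vanishingIdeal_singleton_of_isMaximal ℂ hM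
    exfalso
    apply h x
    constructor
    · have h1 : u ∈ M := hIM (Ideal.subset_span (by simp))
      rw [hx, mem_vanishingIdeal_singleton_iff] at h1
      exact h1
    · have h1 : v ∈ M := hIM (Ideal.subset_span (by simp))
      rw [hx, mem_vanishingIdeal_singleton_iff] at h1
      exact h1

/-- evaluation of a polynomial in one more variable -/
theorem eval_fse {k : Type} [Field k] [Algebra k ℂ] {m : ℕ} (f : Polynomial (MvPolynomial (Fin m) k)) (y : ℂ)
    (t : Fin m → ℂ) : aeval (Fin.cons y t : Fin (m + 1) → ℂ) ((finSuccEquiv k m).symm f) =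
      Polynomial.eval y (f.map (aeval t : MvPolynomial (Fin m) k →ₐ[k] ℂ).toRingHom) := by
  have h : (aeval (Fin.cons y t : Fin (m + 1) → ℂ) : MvPolynomial (Fin (m + 1)) k →ₐ[k] ℂ).toRingHom =
      (((Polynomial.evalRingHom y).comp (Polynomial.mapRingHom (aeval t : MvPolynomial (Fin m) k →ₐ[k] ℂ).toRingHom)).comp
        (finSuccEquiv k m).toAlgHom.toRingHom) := by
    apply MvPolynomial.ringHom_ext
    · intro r
      simp [finSuccEquiv_apply]
    · intro i
      refine Fin.cases ?_ (fun j => ?_) i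
      · simp [finSuccEquiv_X_zero]
      · simp [finSuccEquiv_X_succ]
  have h2 := congrArg (fun g : MvPolynomial (Fin (m + 1)) k →+* ℂ => g ((finSuccEquiv k m).symm f)) h
  simpa using h2

variable {m k : ℕ} {d : Fin k → ℕ}

/-- the affine chart -/
theorem chart1 (A : Subfield ℂ) (C' : Idx d → MvPolynomial (Fin m) A)
    (hdeg : ∀ t : Fin m → ℂ, HasDeg (fun q => aeval t (C' q))) (a : Fin k) :
    ∃ P Q : Polynomial (MvPolynomial (Fin m) A), P * pl C' a 0 + Q * pl C' a 1 = 1 := by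
  obtain ⟨P, Q, hPQ⟩ := bez ((finSuccEquiv A m).symm (pl C' a 0)) ((finSuccEquiv A m).symm (pl C' a 1)) (by
    intro x hx
    have hx1 : x = Fin.cons (x 0) (fun i => x i.succ) := by
      funext i
      refine Fin.cases ?_ (fun j => ?_) i <;> simp
    rw [hx1, eval_fse, eval_fse, map_pl, map_pl] at hx
    exact Pool.Agent.Helper11.OB.no_common (hdeg (fun i => x i.succ)) a (x 0) hx)
  refine ⟨finSuccEquiv A m P, finSuccEquiv A m Q, ?_⟩
  have h := congrArg (finSuccEquiv A m) hPQ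
  rw [map_add, map_mul, map_mul, map_one, AlgEquiv.apply_symm_apply, AlgEquiv.apply_symm_apply] at h
  exact h

/-- the point at infinity -/
theorem chart2 (A : Subfield ℂ) (C' : Idx d → MvPolynomial (Fin m) A)
    (hdeg : ∀ t : Fin m → ℂ, HasDeg (fun q => aeval t (C' q))) (a : Fin k) :
    ∃ P Q : MvPolynomial (Fin m) A, P * C' ⟨a, (0, Fin.last (d a))⟩ + Q * C' ⟨a, (1, Fin.last (d a))⟩ = 1 := by
  apply bez
  rintro x ⟨h0, h1⟩
  apply Pool.Agent.Helper11.OB.no_inf (hdeg x) a
  rw [Pool.Agent.Helper11.OB.coeff_pl, Pool.Agent.Helper11.OB.coeff_pl, dif_pos (Nat.lt_succ_self _),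
    dif_pos (Nat.lt_succ_self _)]
  exact ⟨h0, h1⟩

/-- the coefficients -/
def ZM {A : Subfield ℂ} (f : MvPolynomial (Fin m) A) : Finset ℂ := f.support.image fun s => ((coeff s f : A) : ℂ)

/-- the coefficients of the coefficients -/
def ZP {A : Subfield ℂ} (P : Polynomial (MvPolynomial (Fin m) A)) : Finset ℂ := P.support.biUnion fun n => ZM (P.coeff n)

theorem ZM_mem {A : Subfield ℂ} (f : MvPolynomial (Fin m) A) : ∀ z ∈ ZM f, z ∈ A := by
  intro z hz
  obtain ⟨s, _, rfl⟩ := Finset.mem_image.1 hz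
  exact (coeff s f).2

theorem ZP_mem {A : Subfield ℂ} (P : Polynomial (MvPolynomial (Fin m) A)) : ∀ z ∈ ZP P, z ∈ A := by
  intro z hz
  obtain ⟨n, _, h⟩ := Finset.mem_biUnion.1 hz
  exact ZM_mem _ z h

variable {p : ℕ} [Fact p.Prime] (τ : ℂ →+* PadicAlgCl p)

/-- the numbers with integral image -/
def SS : Subring ℂ := ((Oc p).toSubring).comap τ

theorem mem_SS {z : ℂ} : z ∈ SS τ ↔ ‖τ z‖ ≤ 1 := mem_Oc

/-- the reduction -/
def rho : SS τ →+* kk p :=
  (Ideal.Quotient.mk (mm p)).comp ((τ.comp (SS τ).subtype).codRestrict (Oc p) fun z => z.2)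

theorem rho_eq (z : ℂ) (h : z ∈ SS τ) : rho τ ⟨z, h⟩ = rd τ z := by
  rw [Pool.Agent.Helper11.OB.rd_eq τ ((mem_SS τ).1 h)]
  rfl

theorem coeff_int {A : Subfield ℂ} {Z : Finset ℂ} (hZ : Un τ Z) (f : MvPolynomial (Fin m) A) (hf : ZM f ⊆ Z) (s : Fin m →₀ ℕ) :
    ((coeff s f : A) : ℂ) ∈ SS τ := by
  by_cases h : s ∈ f.support
  · exact (mem_SS τ).2 (hZ _ (hf (Finset.mem_image_of_mem _ h))).1
  · rw [notMem_support_iff.1 h]
    exact (SS τ).zero_mem

theorem aeval_int {A : Subfield ℂ} {Z : Finset ℂ} (hZ : Un τ Z) (f : MvPolynomial (Fin m) A) (hf : ZM f ⊆ Z) {t : Fin m → ℂ}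
    (ht : ∀ i, t i ∈ SS τ) : aeval t f ∈ SS τ := by
  rw [aeval_def, eval₂_eq']
  refine sum_mem fun s _ => mul_mem (coeff_int τ hZ f hf s) (prod_mem fun i _ => pow_mem (ht i) _)

theorem ZP_coeff {A : Subfield ℂ} {Z : Finset ℂ} {P : Polynomial (MvPolynomial (Fin m) A)} (h : ZP P ⊆ Z) (n : ℕ) :
    ZM (P.coeff n) ⊆ Z := by
  by_cases hn : n ∈ P.support
  · exact (Finset.subset_biUnion_of_mem (fun n => ZM (P.coeff n)) hn).trans h
  · rw [Polynomial.notMem_support_iff.1 hn]
    simp [ZM]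

/-- the reduced identity in the affine chart -/
theorem red1 {A : Subfield ℂ} (C' : Idx d → MvPolynomial (Fin m) A) (a : Fin k) {P Q : Polynomial (MvPolynomial (Fin m) A)}
    (hPQ : P * pl C' a 0 + Q * pl C' a 1 = 1) {Z : Finset ℂ} (hZ : Un τ Z) (hP : ZP P ⊆ Z) (hQ : ZP Q ⊆ Z)
    (hC : ∀ q, ZM (C' q) ⊆ Z) {t : Fin m → ℂ} (ht : ∀ i, t i ∈ SS τ) (y : kk p) :
    ¬ (Polynomial.eval y (pl (fun q => rd τ (aeval t (C' q))) a 0) = 0 ∧
      Polynomial.eval y (pl (fun q => rd τ (aeval t (C' q))) a 1) = 0) := by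
  rintro ⟨h0, h1⟩
  set φ : MvPolynomial (Fin m) A →+* ℂ := (aeval t : MvPolynomial (Fin m) A →ₐ[A] ℂ).toRingHom with hφ
  have hlift : ∀ R : Polynomial (MvPolynomial (Fin m) A), ZP R ⊆ Z → ∃ R' : Polynomial (SS τ), R'.map (SS τ).subtype = R.map φ := by
    intro R hR
    have h2 : R.map φ ∈ Polynomial.lifts (SS τ).subtype := by
      rw [Polynomial.lifts_iff_coeff_lifts]
      intro n
      rw [Polynomial.coeff_map]
      exact ⟨⟨_, aeval_int τ hZ _ (ZP_coeff hR n) ht⟩, rfl⟩
    exact h2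
  obtain ⟨P', hP'⟩ := hlift P hP
  obtain ⟨Q', hQ'⟩ := hlift Q hQ
  set c' : Idx d → SS τ := fun q => ⟨aeval t (C' q), aeval_int τ hZ _ (hC q) ht⟩ with hc'
  have hpl : ∀ i, (pl c' a i).map (SS τ).subtype = (pl C' a i).map φ := by
    intro i
    rw [map_pl, map_pl]
    rfl
  have hid : P' * pl c' a 0 + Q' * pl c' a 1 = 1 := by
    apply Polynomial.map_injective (SS τ).subtype Subtype.val_injective
    rw [Polynomial.map_add, Polynomial.map_mul, Polynomial.map_mul, Polynomial.map_one, hpl, hpl, hP', hQ', ← Polynomial.map_mul,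
      ← Polynomial.map_mul, ← Polynomial.map_add, hPQ, Polynomial.map_one]
  have h3 := congrArg (fun R => Polynomial.eval y (R.map (rho τ))) hid
  simp only [Polynomial.map_add, Polynomial.map_mul, Polynomial.map_one, Polynomial.eval_add, Polynomial.eval_mul,
    Polynomial.eval_one, map_pl] at h3
  have h4 : (fun q => rho τ (c' q)) = fun q => rd τ (aeval t (C' q)) := by
    funext q
    exact rho_eq τ _ _
  rw [h4, h0, h1, mul_zero, mul_zero, add_zero] at h3
  exact zero_ne_one h3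

/-- the reduced identity at infinity -/
theorem red2 {A : Subfield ℂ} (C' : Idx d → MvPolynomial (Fin m) A) (a : Fin k) {P Q : MvPolynomial (Fin m) A}
    (hPQ : P * C' ⟨a, (0, Fin.last (d a))⟩ + Q * C' ⟨a, (1, Fin.last (d a))⟩ = 1) {Z : Finset ℂ} (hZ : Un τ Z)
    (hP : ZM P ⊆ Z) (hQ : ZM Q ⊆ Z) (hC : ∀ q, ZM (C' q) ⊆ Z) {t : Fin m → ℂ} (ht : ∀ i, t i ∈ SS τ) :
    ¬ (rd τ (aeval t (C' ⟨a, (0, Fin.last (d a))⟩)) = 0 ∧ rd τ (aeval t (C' ⟨a, (1, Fin.last (d a))⟩)) = 0) := by
  rintro ⟨h0, h1⟩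
  have h2 := congrArg (aeval t : MvPolynomial (Fin m) A →ₐ[A] ℂ) hPQ
  rw [map_add, map_mul, map_mul, map_one] at h2
  have h3 : (⟨aeval t P, aeval_int τ hZ _ hP ht⟩ : SS τ) * ⟨aeval t (C' ⟨a, (0, Fin.last (d a))⟩), aeval_int τ hZ _ (hC _) ht⟩ +
      ⟨aeval t Q, aeval_int τ hZ _ hQ ht⟩ * ⟨aeval t (C' ⟨a, (1, Fin.last (d a))⟩), aeval_int τ hZ _ (hC _) ht⟩ = 1 :=
    Subtype.ext h2
  have h4 := congrArg (rho τ) h3
  rw [map_add, map_mul, map_mul, map_one, rho_eq, rho_eq τ (aeval t (C' ⟨a, (0, Fin.last (d a))⟩)), rho_eq,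
    rho_eq τ (aeval t (C' ⟨a, (1, Fin.last (d a))⟩)), h0, h1, mul_zero, mul_zero, add_zero] at h4
  exact zero_ne_one h4

/-- **GR**: good reduction of a family -/
theorem redS (A : Subfield ℂ) (hA : ∀ z : ℂ, IsAlgebraic A z → z ∈ A) {m k : ℕ} {d : Fin k → ℕ}
    (C : Idx d → MvPolynomial (Fin m) ℂ) (hC : ∀ q s, coeff s (C q) ∈ A)
    (hdeg : ∀ t : Fin m → ℂ, HasDeg (at' C t)) : ∃ Z : Finset ℂ, (∀ z ∈ Z, z ∈ A) ∧
      ∀ (p : ℕ) [Fact p.Prime] (τ : ℂ →+* PadicAlgCl p), Un τ Z → (∀ q s, ‖τ (coeff s (C q))‖ ≤ 1) ∧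
        ∀ t : Fin m → ℂ, (∀ i, ‖τ (t i)‖ ≤ 1) → ∀ a (x : Fin 2 → kk p), x ≠ 0 →
          ev (form (fun q => rd τ (at' C t q)) a) x ≠ 0 := by
  have hlift : ∀ q, ∃ f : MvPolynomial (Fin m) A, MvPolynomial.map A.subtype f = C q := by
    intro q
    have h : C q ∈ Set.range (MvPolynomial.map A.subtype) := by
      rw [mem_range_map_iff_coeffs_subset]
      intro z hz
      obtain ⟨s, _, rfl⟩ := mem_coeffs_iff.1 hz
      exact ⟨⟨_, hC q s⟩, rfl⟩
    exact h
  choose C' hC' using hlift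
  have hcoeff : ∀ q s, coeff s (C q) = ((coeff s (C' q) : A) : ℂ) := by
    intro q s
    rw [← hC', coeff_map]
    rfl
  have hval : ∀ (t : Fin m → ℂ) q, at' C t q = aeval t (C' q) := by
    intro t q
    rw [at', ← hC', eval_map, aeval_def]
    rfl
  have hdeg' : ∀ t : Fin m → ℂ, HasDeg (fun q => aeval t (C' q)) := by
    intro t
    have : at' C t = fun q => aeval t (C' q) := funext (hval t)
    rw [← this]
    exact hdeg t
  choose P Q hPQ using fun a => chart1 A C' hdeg' a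
  choose P₂ Q₂ hPQ₂ using fun a => chart2 A C' hdeg' a
  let Z : Finset ℂ := (Finset.univ.biUnion fun q => ZM (C' q)) ∪ (Finset.univ.biUnion fun a => ZP (P a) ∪ ZP (Q a)) ∪
    (Finset.univ.biUnion fun a => ZM (P₂ a) ∪ ZM (Q₂ a))
  have z1 : ∀ q, ZM (C' q) ⊆ Z := fun q =>
    ((Finset.subset_biUnion_of_mem (fun q => ZM (C' q)) (Finset.mem_univ q)).trans Finset.subset_union_left).trans
      Finset.subset_union_left
  have z2 : ∀ a, ZP (P a) ∪ ZP (Q a) ⊆ Z := fun a =>
    ((Finset.subset_biUnion_of_mem (fun a => ZP (P a) ∪ ZP (Q a)) (Finset.mem_univ a)).trans Finset.subset_union_right).trans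
      Finset.subset_union_left
  have z3 : ∀ a, ZM (P₂ a) ∪ ZM (Q₂ a) ⊆ Z := fun a =>
    (Finset.subset_biUnion_of_mem (fun a => ZM (P₂ a) ∪ ZM (Q₂ a)) (Finset.mem_univ a)).trans Finset.subset_union_right
  refine ⟨Z, ?_, ?_⟩
  · intro z hz
    rcases Finset.mem_union.1 hz with hz | hz
    · rcases Finset.mem_union.1 hz with hz | hz
      · obtain ⟨q, _, h⟩ := Finset.mem_biUnion.1 hz
        exact ZM_mem _ z h
      · obtain ⟨a, _, h⟩ := Finset.mem_biUnion.1 hz
        rcases Finset.mem_union.1 h with h | h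
        · exact ZP_mem _ z h
        · exact ZP_mem _ z h
    · obtain ⟨a, _, h⟩ := Finset.mem_biUnion.1 hz
      rcases Finset.mem_union.1 h with h | h
      · exact ZM_mem _ z h
      · exact ZM_mem _ z h
  · intro p _ τ hτ
    refine ⟨fun q s => ?_, ?_⟩
    · rw [hcoeff]
      exact (mem_SS τ).1 (coeff_int τ hτ _ (z1 q) s)
    · intro t ht a x hx h
      have ht' : ∀ i, t i ∈ SS τ := fun i => (mem_SS τ).2 (ht i)
      have hfun : (fun q => rd τ (at' C t q)) = fun q => rd τ (aeval t (C' q)) := by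
        funext q
        rw [hval]
      rw [hfun] at h
      have hi : ∀ i : Fin 2, ∑ j : Fin (d a + 1), rd τ (aeval t (C' ⟨a, (i, j)⟩)) * x 0 ^ (j : ℕ) * x 1 ^ (d a - j) = 0 := by
        intro i
        have := congrFun h i
        rw [ev, eval_form] at this
        exact this
      by_cases hx1 : x 1 = 0
      · have hx0 : x 0 ≠ 0 := by
          intro h0
          apply hx
          funext i
          fin_cases i
          · exact h0
          · exact hx1
        have hlast : ∀ i : Fin 2, rd τ (aeval t (C' ⟨a, (i, Fin.last (d a))⟩)) = 0 := by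
          intro i
          have h1 := hi i
          rw [Fin.sum_univ_castSucc, hx1] at h1
          have h2 : ∑ j : Fin (d a), rd τ (aeval t (C' ⟨a, (i, j.castSucc)⟩)) * x 0 ^ ((j.castSucc : Fin (d a + 1)) : ℕ) *
              0 ^ (d a - (j.castSucc : Fin (d a + 1))) = 0 := by
            apply Finset.sum_eq_zero
            intro j _
            rw [zero_pow, mul_zero]
            have := j.2
            simp only [Fin.val_castSucc]
            omega
          rw [h2, zero_add, Fin.val_last, Nat.sub_self, pow_zero, mul_one] at h1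
          exact (mul_eq_zero.1 h1).resolve_right (pow_ne_zero _ hx0)
        exact red2 τ C' a (hPQ₂ a) hτ (Finset.union_subset_left (z3 a)) (Finset.union_subset_right (z3 a)) z1 ht'
          ⟨hlast 0, hlast 1⟩
      · have hev : ∀ i : Fin 2, Polynomial.eval (x 0 / x 1) (pl (fun q => rd τ (aeval t (C' q))) a i) = 0 := by
          intro i
          have h1 := hi i
          have h2 : ∑ j : Fin (d a + 1), rd τ (aeval t (C' ⟨a, (i, j)⟩)) * x 0 ^ (j : ℕ) * x 1 ^ (d a - j) =
              x 1 ^ d a * Polynomial.eval (x 0 / x 1) (pl (fun q => rd τ (aeval t (C' q))) a i) := by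
            rw [pl, Polynomial.eval_finsetSum, Finset.mul_sum]
            refine Finset.sum_congr rfl fun j _ => ?_
            have h3 : x 1 ^ d a = x 1 ^ (j : ℕ) * x 1 ^ (d a - j) := by
              rw [← pow_add]
              congr 1
              have := j.2
              omega
            rw [h3]
            simp only [Polynomial.eval_mul, Polynomial.eval_C, Polynomial.eval_pow, Polynomial.eval_X, div_pow]
            field_simp
          rw [h2] at h1
          exact (mul_eq_zero.1 h1).resolve_left (pow_ne_zero _ hx1)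
        exact red1 τ C' a (hPQ a) hτ (Finset.union_subset_left (z2 a)) (Finset.union_subset_right (z2 a)) z1 ht' (x 0 / x 1)
          ⟨hev 0, hev 1⟩

end

end Pool.Agent.Helper53.OS
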